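import Pool.Agent.helper34.MO.SpecD

/-! Project MO (MP_0631c5_co), row LAM -/

open Finset

namespace Pool.Agent.MO

private theorem LAM_core (n : ℕ) (A : Fin n → Fin n → ℝ) (c x : ℝ) (hc : 0 ≤ c)
    (hsym : ∀ i j, A i j = A j i) (hnn : ∀ i j, 0 ≤ A i j)
    (hr : ∀ k, ∑ j, A k j * (∑ i, A j i) ≤ c + 3 * ∑ i, A k i) (v : Fin n → ℝ) (hv0 : v ≠ 0)
    (hv : ∀ i, ∑ j, A i j * v j = x * v i) : x ^ 2 - 3 * |x| ≤ c := by
  have hS0 : 0 < ∑ i, |v i| := by
    obtain ⟨i, hi⟩ := Function.ne_iff.mp hv0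
    refine Finset.sum_pos' (fun i _ => abs_nonneg _) ⟨i, mem_univ i, ?_⟩
    exact abs_pos.mpr hi
  have h1 : ∀ i, |x| * |v i| ≤ ∑ j, A i j * |v j| := by
    intro i
    rw [← abs_mul, ← hv i]
    refine (Finset.abs_sum_le_sum_abs _ _).trans (le_of_eq ?_)
    refine Finset.sum_congr rfl fun j _ => ?_
    rw [abs_mul, abs_of_nonneg (hnn i j)]
  have hd : ∀ j, 0 ≤ ∑ i, A j i := fun j => Finset.sum_nonneg fun i _ => hnn j i
  have hS1 : |x| * ∑ i, |v i| ≤ ∑ j, (∑ i, A j i) * |v j| := by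
    rw [Finset.mul_sum]
    refine (Finset.sum_le_sum fun i _ => h1 i).trans (le_of_eq ?_)
    rw [Finset.sum_comm]
    refine Finset.sum_congr rfl fun j _ => ?_
    rw [Finset.sum_mul]
    refine Finset.sum_congr rfl fun i _ => ?_
    rw [hsym i j]
  have hS2 : |x| * ∑ j, (∑ i, A j i) * |v j| ≤ ∑ i, (∑ k, A i k) * ∑ j, A i j * |v j| := by
    rw [Finset.mul_sum]
    refine Finset.sum_le_sum fun i _ => ?_
    have := mul_le_mul_of_nonneg_left (h1 i) (hd i)
    linarith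
  have hS3 : ∑ i, (∑ k, A i k) * ∑ j, A i j * |v j| ≤
      c * ∑ i, |v i| + 3 * ∑ j, (∑ i, A j i) * |v j| := by
    have e1 : ∑ i, (∑ k, A i k) * ∑ j, A i j * |v j| =
        ∑ j, (∑ i, A j i * (∑ k, A i k)) * |v j| := by
      have e2 : ∑ i, (∑ k, A i k) * ∑ j, A i j * |v j| =
          ∑ i, ∑ j, (∑ k, A i k) * (A i j * |v j|) :=
        Finset.sum_congr rfl fun i _ => Finset.mul_sum _ _ _
      rw [e2, Finset.sum_comm]
      refine Finset.sum_congr rfl fun j _ => ?_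
      rw [Finset.sum_mul]
      refine Finset.sum_congr rfl fun i _ => ?_
      rw [hsym i j]
      ring
    rw [e1, Finset.mul_sum, Finset.mul_sum, ← Finset.sum_add_distrib]
    refine Finset.sum_le_sum fun j _ => ?_
    have := mul_le_mul_of_nonneg_right (hr j) (abs_nonneg (v j))
    linarith
  by_cases h3 : |x| ≤ 3
  · have h4 : x ^ 2 = |x| * |x| := by rw [← sq_abs]; ring
    have h5 := mul_nonneg (abs_nonneg x) (sub_nonneg.mpr h3)
    nlinarith
  · have h3' : 0 < |x| - 3 := by linarith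
    have h4 : x ^ 2 = |x| * |x| := by rw [← sq_abs]; ring
    have h5 := mul_le_mul_of_nonneg_left hS1 h3'.le
    have h6 : (|x| - 3) * (|x| * ∑ i, |v i|) ≤ c * ∑ i, |v i| := by linarith
    have h7 : ((|x| - 3) * |x|) * ∑ i, |v i| ≤ c * ∑ i, |v i| := by linarith
    have h8 := le_of_mul_le_mul_right h7 hS0
    linarith

theorem LAM (hATS : ATS_stmt) (hRSB : RSB_stmt) : LAM_stmt := by
  intro τ hτ x hx
  have hx' : x ∈ (Matrix.of (fun i j : Fin (τ.sz + 2) => AG τ i.1 j.1)).charpoly.roots := hx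
  rw [Polynomial.mem_roots (Matrix.charpoly_monic _).ne_zero, Polynomial.IsRoot,
    Matrix.eval_charpoly] at hx'
  obtain ⟨v, hv0, hv⟩ := Matrix.exists_mulVec_eq_zero_iff.mpr hx'
  have hτ' : (2 : ℝ) ≤ τ.sz := by exact_mod_cast hτ
  refine LAM_core (τ.sz + 2) (fun i j => AG τ i.1 j.1) ((τ.sz : ℝ) + 2 - 4) x (by linarith)
    (fun i j => (hATS.2 τ i.1 j.1).1) ?_ ?_ v hv0 ?_
  · intro i j
    rcases (hATS.2 τ i.1 j.1).2.1 with h | h
    · exact h.ge
    · exact h.symm ▸ zero_le_one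
  · intro k
    have h1 := hRSB τ k.1 (mem_range.mpr k.2)
    simp only [Finset.sum_range] at h1
    exact h1
  · intro i
    have h1 := congrFun hv i
    rw [Matrix.sub_mulVec, Pi.sub_apply, Pi.zero_apply, sub_eq_zero] at h1
    have h2 : ((Matrix.scalar (Fin (τ.sz + 2))) x).mulVec v i = x * v i := by
      simp [Matrix.scalar_apply, Matrix.mulVec_diagonal]
    rw [h2] at h1
    rw [h1]
    simp [Matrix.mulVec, dotProduct]

end Pool.Agent.MO
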