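import Pool.Agent.helper34.MO.SpecB

/-! Project MO (MP_0631c5_co), row NODE -/

open Complex Finset

namespace Pool.Agent.MO

private theorem NODE_pos {la lb : Bool} {r : WT} {y : ℝ} (h : ReqL la lb r)
    (hy : rootL r = some y) : 0 < y := by
  cases r with
  | e => simp [rootL] at hy
  | nd o l r =>
    cases o with
    | none => simp [rootL] at hy
    | some b =>
      simp only [rootL, Option.some.injEq] at hy
      rw [← hy]
      exact h.1

private theorem NODE_A (s : St) (L : BD) (p' q' T : ℝ) :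
    (s2 s L 0 q' (T + p')).A = (s2 s L 0 0 T).A + (p' : ℂ) := by
  simp only [s2]
  push_cast
  ring

private theorem NODE_B (s : St) (L : BD) (p' q' T : ℝ) :
    (s2 s L 0 q' (T + p')).B = (s2 s L 0 0 T).B + (q' : ℂ) := by
  simp only [s2]
  push_cast
  ring

theorem NODE (hACT : ACT_stmt) (hA2P : A2P_stmt) (hN1 : N1_stmt) (hN2 : N2_stmt) (hN3 : N3_stmt)
    (hN4 : N4_stmt) (hN5 : N5_stmt) : NODE_stmt := by
  intro l r l' r' a T hl' hr' haT hreq hlpos IHl IHr s hs
  obtain ⟨hacc, hg2, hroot⟩ := hs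
  obtain ⟨hg2', hg3⟩ := hroot a rfl
  obtain ⟨ha0, ha1, hrl, hrr, hxy⟩ := hreq
  have hT : 0 < T := lt_of_lt_of_le ha0 haT
  have hpL : Psd2 (bd l').al (bd l').be (bd l').mu := hACT l' hl'
  have hpR : Psd2 (bd r').al (bd r').be (bd r').mu := hACT r' hr'
  have htot : tot s (.nd (some T) l' r') = tot (s2 s (bd l') 0 0 T) r' :=
    (hN5 s (bd l') (bd r') T hacc hpL hpR hT).symm
  rw [htot]
  apply IHr
  have h4 := fun p' q' (hp : 0 ≤ p') (hq : 0 ≤ q') =>
    hN4 s (bd l') 0 q' (T + p') hacc hpL le_rfl hq (by linarith)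
  refine ⟨(hN4 s (bd l') 0 0 T hacc hpL le_rfl le_rfl hT).1, ?_, ?_⟩
  · intro p' q' hp hq
    have h1 := IHl _ (hN1 s 0 q' (T + p') a l hacc hg2 hg2' hg3 ha0 le_rfl hq (by linarith) hlpos)
    have h2 := (h4 p' q' hp hq).2.2.1
    unfold tot at h1
    rw [h2, NODE_A, NODE_B] at h1
    exact h1
  · intro y hy
    have hy0 := NODE_pos hrr hy
    refine ⟨?_, ?_⟩
    · intro p' q' hp hq
      have h1 := IHl _ (hN2 s 0 q' (T + p') l hacc hg2 (by linarith) le_rfl hq hlpos)
      have h2 := (h4 p' q' hp hq).2.2.2.1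
      unfold tot at h1
      rw [h2, NODE_A, NODE_B] at h1
      exact h1
    · intro p' q' W hp hq hW
      have hW0 : 0 < W := lt_of_lt_of_le hy0 hW
      have hc : rootL l = none ∨ (rootL l = some 1 ∧ 1 ≤ W ∧ a ≤ 1) := by
        cases hx : rootL l with
        | none => exact Or.inl rfl
        | some x =>
          right
          obtain ⟨hx1, hy1⟩ := hxy rfl rfl x y hx hy
          refine ⟨by rw [hx1], ?_, ha1⟩
          rw [hy1] at hW
          exact hW
      have h1 := IHl _ (hN3 s 0 q' (T + p') W a l hacc hg2 hg2' hg3 ha0 le_rfl hq (by linarith)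
        hW0 hc)
      have h2 := (h4 p' q' hp hq).2.2.2.2 W hW0
      unfold tot at h1
      rw [h2, NODE_A, NODE_B] at h1
      exact h1

end Pool.Agent.MO
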